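import Pool.Agent.helper80.HM.SpecA

set_option autoImplicit false

namespace Pool.Agent.HM

open Finset Pool.Agent.helper33.Mod

theorem KCN (hRS : RS_stmt) (hSTG : STG_stmt) : KCN_stmt := by
  intro M c r a N g m V T U β hc hra haN hg hm hβ hTV hB hG
  have hcR : (0 : ℝ) < (c : ℝ) ^ M := by
    have : (0 : ℝ) < c := by exact_mod_cast hc
    positivity
  have hRS' := hRS (M := M) (c := c) (DD U a N) (fun h => Inj h T ∧ m (orI (gV V h) β) = false)
  have hdis : ∀ v ∈ T, v ∉ DD U a N := by
    intro v hv hD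
    unfold DD at hD
    obtain ⟨i, hi, hD⟩ := mem_biUnion.1 hD
    obtain ⟨b, hb, hD⟩ := mem_biUnion.1 hD
    exact Finset.disjoint_left.1 (hB.dis i (mem_range.1 hi) b (mem_range.1 hb)) hD hv
  have hterm : ∀ h0 : Fin M → Fin c, cn (fun h => Inj (mix (DD U a N) h0 h) T ∧
      m (orI (gV V (mix (DD U a N) h0 h)) β) = false) ≤ (1 / 2) ^ N * (c : ℝ) ^ M := by
    intro h0
    by_cases hi : Inj h0 T
    · have h1 := hSTG (M := M) (c := c) (r := r) (N := N) g m V T U β a hc hg hm hβ hTV hB hG h0 hi β le_rfl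
        ((card_filter_le _ _).trans (by rw [card_univ, Fintype.card_fin]; exact hra))
      refine (cn_mono fun h hh => hh.2).trans (h1.trans ?_)
      rw [← mul_assoc]
      refine mul_le_mul_of_nonneg_right ?_ hcR.le
      have h2 : (a : ℝ) ≤ 2 ^ N := by exact_mod_cast haN
      calc (a : ℝ) * (1 / 4) ^ N ≤ 2 ^ N * (1 / 4) ^ N :=
            mul_le_mul_of_nonneg_right h2 (by positivity)
        _ = (1 / 2) ^ N := by
            rw [← mul_pow]
            norm_num
    · have h1 : cn (fun h => Inj (mix (DD U a N) h0 h) T ∧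
          m (orI (gV V (mix (DD U a N) h0 h)) β) = false) = 0 := by
        unfold cn
        refine sum_eq_zero fun h _ => ind_false ?_
        rintro ⟨h2, _⟩
        exact hi ((inj_congr fun v hv => mix_not_mem (hdis v hv)).1 h2)
      rw [h1]
      positivity
  have hsum : (c : ℝ) ^ M * cn (fun h : Fin M → Fin c => Inj h T ∧ m (orI (gV V h) β) = false) ≤
      (c : ℝ) ^ M * ((1 / 2) ^ N * (c : ℝ) ^ M) := by
    rw [← hRS']
    refine (sum_le_sum fun h0 _ => hterm h0).trans ?_
    rw [sum_const, card_univ, nsmul_eq_mul, Fintype.card_fun, Fintype.card_fin, Fintype.card_fin]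
    push_cast
    exact le_rfl
  exact le_of_mul_le_mul_left hsum hcR

end Pool.Agent.HM
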