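import Pool.Agent.helper80.HM.SpecB

set_option autoImplicit false

namespace Pool.Agent.HM

open Finset Pool.Agent.helper33.Mod

theorem MKA : MKA_stmt := by
  classical
  intro M a k c l L N r V T F φ B hφ hra hL hT hB Q hQ hacc hnacc
  rw [mem_KS] at hQ
  obtain ⟨_, _, hTQ⟩ := hQ
  -- the chosen members
  have hch : ∀ j, ∃ K : Finset (Fin M), (AccQ l (F j) Q → K ∈ F j) ∧ K.card ≤ l ∧ K ⊆ Q := by
    intro j
    by_cases h : AccQ l (F j) Q
    · obtain ⟨K, hK, hKl, hKQ⟩ := h
      exact ⟨K, fun _ => hK, hKl, hKQ⟩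
    · exact ⟨∅, fun h' => absurd h' h, by simp, by simp⟩
  choose K hK1 hK2 hK3 using hch
  have hK' : ∃ K' : Finset (Fin M), K' = T ∪ univ.biUnion K := ⟨_, rfl⟩
  obtain ⟨K', hK'⟩ := hK'
  have hK'Q : K' ⊆ Q := by
    rw [hK']
    refine union_subset hTQ ?_
    intro v hv
    obtain ⟨j, _, hj⟩ := mem_biUnion.1 hv
    exact hK3 j hj
  have hcard : K'.card ≤ L := by
    have h1 : (univ.biUnion K).card ≤ r * l := by
      have h2 := card_biUnion_le_card_mul (univ : Finset (Fin r)) K l (fun j _ => hK2 j)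
      rwa [card_univ, Fintype.card_fin] at h2
    have h3 := card_union_le T (univ.biUnion K)
    rw [hK', hL]
    have h4 : r * l ≤ a * l := Nat.mul_le_mul_right l hra
    have h5 : (a + 1) * l = a * l + l := by ring
    omega
  have hmem : K' ∈ B := by
    refine hB.mem K' hcard ?_
    have h1 : cn (fun h : Fin M → Fin c => Inj h K' ∧ ¬ (φ (fun j => bl (AccH l (F j) h)) = true) ∧
        ¬ Acc B h) = 0 := by
      unfold cn
      refine sum_eq_zero fun h _ => ind_false ?_
      rintro ⟨hi, hn, _⟩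
      apply hn
      have h2 : (fun j => bl (AccQ l (F j) Q)) ≤ fun j => bl (AccH l (F j) h) := by
        intro j
        refine bl_mono fun hj => ?_
        refine ⟨K j, hK1 j hj, hK2 j, hi.mono ?_⟩
        rw [hK']
        intro v hv
        exact mem_union_right _ (mem_biUnion.2 ⟨j, mem_univ _, hv⟩)
      exact Bool.le_iff_imp.1 (hφ h2) hacc
    rw [h1]
    positivity
  have hTK' : T ∪ (K' \ T) = K' := by
    rw [union_sdiff_self_eq_union, hK', ← union_assoc, union_self]
  obtain ⟨Z, hZ1, hZ2⟩ := exists_min (A := B) (U := T) (Y := K' \ T) disjoint_sdiff (by rw [hTK']; exact hmem)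
  have hZ3 := mem_Mn.1 hZ2
  have hZQ : Z ⊆ Q \ T := hZ1.trans (sdiff_subset_sdiff hK'Q (Subset.refl _))
  have hcu : (T ∪ Z).card = T.card + Z.card := card_union_of_disjoint hZ3.2.1
  refine ⟨Z, hZQ, hZ2, ?_, ?_⟩
  · by_contra hlt
    apply hnacc
    refine ⟨T ∪ Z, hZ3.2.2.1, by omega, union_subset hTQ (hZQ.trans sdiff_subset)⟩
  · rw [← hcu]
    exact hB.cl.le _ hZ3.2.2.1

end Pool.Agent.HM
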